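import Pool.Agent.Helper94.LK.Spec

/-!
MP_e4073d_mp, part HSC : Hilbert-Schmidt operators are compact.
-/

set_option autoImplicit false

open MeasureTheory Filter Topology Set
open scoped ENNReal InnerProductSpace

namespace Pool.Agent.Helper93.LK

open Pool.Agent.Helper94.LK

/-- `L²(ℝ²)` -/
noncomputable abbrev V := Lp ℝ 2 (volume : Measure (ℝ × ℝ))

lemma memLp_tens (f h : ℝ → ℝ) (hf : MemLp f 2 volume) (hh : MemLp h 2 volume) :
    MemLp (fun z : ℝ × ℝ => f z.1 * h z.2) 2 volume := by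
  have h1 : AEStronglyMeasurable (fun z : ℝ × ℝ => f z.1 * h z.2) (volume : Measure (ℝ × ℝ)) :=
    hf.1.comp_fst.mul hh.1.comp_snd
  rw [memLp_two_iff_integrable_sq h1]
  have h2 : Integrable (fun z : ℝ × ℝ => f z.1 ^ 2 * h z.2 ^ 2) (volume.prod volume) :=
    ((memLp_two_iff_integrable_sq hf.1).1 hf).mul_prod ((memLp_two_iff_integrable_sq hh.1).1 hh)
  refine h2.congr ?_
  filter_upwards with z
  ring

/-- elementary tensor -/
noncomputable def tens (f h : X) : V := (memLp_tens f h (Lp.memLp f) (Lp.memLp h)).toLp _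

lemma inner_X (f g : X) : ⟪f, g⟫_ℝ = ∫ s, f s * g s := by
  rw [L2.inner_def]
  apply integral_congr_ae
  filter_upwards with s
  simp [mul_comm]

lemma inner_V (f g : V) : ⟪f, g⟫_ℝ = ∫ s, f s * g s := by
  rw [L2.inner_def]
  apply integral_congr_ae
  filter_upwards with s
  simp [mul_comm]

lemma inner_tens (f h f' h' : X) : ⟪tens f h, tens f' h'⟫_ℝ = ⟪f, f'⟫_ℝ * ⟪h, h'⟫_ℝ := by
  rw [inner_V, inner_X, inner_X]
  have h1 : ∫ z : ℝ × ℝ, (f z.1 * f' z.1) * (h z.2 * h' z.2) ∂(volume.prod volume) =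
      (∫ s, f s * f' s) * ∫ s, h s * h' s :=
    integral_prod_mul (fun s => f s * f' s) (fun s => h s * h' s)
  rw [← h1]
  apply integral_congr_ae
  filter_upwards [(memLp_tens f h (Lp.memLp f) (Lp.memLp h)).coeFn_toLp,
    (memLp_tens f' h' (Lp.memLp f') (Lp.memLp h')).coeFn_toLp] with z h2 h3
  unfold tens
  rw [h2, h3]
  ring

lemma orthonormal_tens {ι κ : Type*} (v : ι → X) (w : κ → X) (hv : Orthonormal ℝ v)
    (hw : Orthonormal ℝ w) : Orthonormal ℝ (fun p : ι × κ => tens (v p.1) (w p.2)) := by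
  classical
  rw [orthonormal_iff_ite]
  rw [orthonormal_iff_ite] at hv hw
  rintro ⟨i, j⟩ ⟨i', j'⟩
  rw [inner_tens]
  simp only
  rw [hv i i', hw j j']
  by_cases h1 : i = i' <;> by_cases h2 : j = j' <;> simp [h1, h2, Prod.ext_iff]

lemma hs_bound (E : ℝ → ℝ → ℝ) (hE : Measurable (Function.uncurry E))
    (hE2 : Integrable (fun z : ℝ × ℝ => E z.1 z.2 ^ 2)) (T : X →L[ℝ] X)
    (hT : ∀ f h : X, ⟪T f, h⟫_ℝ = Bil E f h) :
    ∃ C : ℝ, ∀ (n : ℕ) (v : Fin n → X), Orthonormal ℝ v → ∑ i, ‖T (v i)‖ ^ 2 ≤ C := by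
  have hEm : MemLp (fun z : ℝ × ℝ => E z.1 z.2) 2 volume := by
    have h1 : AEStronglyMeasurable (fun z : ℝ × ℝ => E z.1 z.2) (volume : Measure (ℝ × ℝ)) :=
      hE.aestronglyMeasurable
    rw [memLp_two_iff_integrable_sq h1]
    exact hE2
  set EE : V := hEm.toLp _ with hEE
  have hin : ∀ f h : X, ⟪T f, h⟫_ℝ = ⟪tens f h, EE⟫_ℝ := by
    intro f h
    rw [hT, inner_V, Bil]
    apply integral_congr_ae
    filter_upwards [(memLp_tens f h (Lp.memLp f) (Lp.memLp h)).coeFn_toLp,
      hEm.coeFn_toLp] with z h2 h3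
    unfold tens
    rw [hEE, h2, h3]
    ring
  refine ⟨‖EE‖ ^ 2, ?_⟩
  intro n v hv
  let U : Submodule ℝ X := Submodule.span ℝ (Set.range fun i => T (v i))
  have hfd : FiniteDimensional ℝ U := FiniteDimensional.span_of_finite ℝ (Set.finite_range _)
  let b := stdOrthonormalBasis ℝ U
  have hw : Orthonormal ℝ (fun j => ((b j : U) : X)) := by
    have h1 := b.orthonormal
    exact h1.comp_linearIsometry U.subtypeₗᵢ
  have h2 := (orthonormal_tens v _ hv hw).sum_inner_products_le EE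
    (s := Finset.univ)
  refine le_trans (le_of_eq ?_) h2
  rw [Fintype.sum_prod_type]
  apply Finset.sum_congr rfl
  intro i _
  have hmem : T (v i) ∈ U := Submodule.subset_span ⟨i, rfl⟩
  have h3 := b.sum_sq_norm_inner_right (⟨T (v i), hmem⟩ : U)
  have h4 : ‖T (v i)‖ ^ 2 = ‖(⟨T (v i), hmem⟩ : U)‖ ^ 2 := by rw [Submodule.coe_norm]
  rw [h4, ← h3]
  apply Finset.sum_congr rfl
  intro j _
  congr 1
  rw [← hin, real_inner_comm]
  rfl

theorem hsc_thm : S_HSC := by
  intro E hE hE2 T hT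
  obtain ⟨C, hC⟩ := hs_bound E hE hE2 T hT
  set S : Set ℝ := {c | ∃ (n : ℕ) (v : Fin n → X), Orthonormal ℝ v ∧ c = ∑ i, ‖T (v i)‖ ^ 2}
    with hS
  have hSb : BddAbove S := ⟨C, by rintro c ⟨n, v, hv, rfl⟩; exact hC n v hv⟩
  have hSn : S.Nonempty := ⟨_, 0, Fin.elim0, by
    constructor
    · intro i; exact i.elim0
    · intro i; exact i.elim0, rfl⟩
  have hclosed : IsClosed {f : X →SL[RingHom.id ℝ] X | IsCompactOperator f} :=
    isClosed_setOfPred_isCompactOperator (𝕜₁ := ℝ) (𝕜₂ := ℝ)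
      (σ₁₂ := RingHom.id ℝ) (M₁ := X) (M₂ := X)
  have hmem : T ∈ closure {f : X →SL[RingHom.id ℝ] X | IsCompactOperator f} := by
    rw [Metric.mem_closure_iff]
    intro ε hε
    have hε2 : sSup S - (ε / 2) ^ 2 < sSup S := by
      have : 0 < (ε / 2) ^ 2 := by positivity
      linarith
    obtain ⟨c, ⟨n, v, hv, rfl⟩, hc⟩ := exists_lt_of_lt_csSup hSn hε2
    let U : Submodule ℝ X := Submodule.span ℝ (Set.range v)
    have hfd : FiniteDimensional ℝ U := FiniteDimensional.span_of_finite ℝ (Set.finite_range _)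
    have hprop : ProperSpace U := FiniteDimensional.proper ℝ U
    let P : X →L[ℝ] X := U.starProjection
    refine ⟨T.comp P, ?_, ?_⟩
    · -- finite rank
      show IsCompactOperator (T.comp P)
      have h1 : IsCompactOperator (U.orthogonalProjectionOnto) :=
        isCompactOperator_of_locallyCompactSpace_dom _
      have h2 := h1.clm_comp (T.comp U.subtypeL)
      exact h2
    · rw [dist_eq_norm]
      refine lt_of_le_of_lt (ContinuousLinearMap.opNorm_le_bound _ (by positivity : 0 ≤ ε / 2) ?_)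
        (by linarith)
      intro f
      set g : X := f - P f with hg
      have e1 : (T - T.comp P) f = T g := by
        simp [hg]
      rw [e1]
      have hgo : g ∈ Uᗮ := Submodule.sub_starProjection_mem_orthogonal f
      have hgn : ‖g‖ ≤ ‖f‖ := by
        have h3 : ‖f‖ ^ 2 = ‖P f‖ ^ 2 + ‖g‖ ^ 2 := by
          have h4 : f = P f + g := by rw [hg]; abel
          have h5 : ⟪P f, g⟫_ℝ = 0 := by
            apply Submodule.inner_right_of_mem_orthogonal _ hgo
            exact Submodule.starProjection_apply_mem U f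
          conv_lhs => rw [h4]
          rw [norm_add_sq_real, h5]; ring
        have h6 : ‖g‖ ^ 2 ≤ ‖f‖ ^ 2 := by rw [h3]; nlinarith [sq_nonneg ‖P f‖]
        exact (sq_le_sq₀ (norm_nonneg _) (norm_nonneg _)).1 h6
      by_cases hg0 : g = 0
      · rw [hg0, map_zero, norm_zero]; positivity
      have hgp : 0 < ‖g‖ := norm_pos_iff.2 hg0
      set u : X := (‖g‖)⁻¹ • g with hu
      have hun : ⟪u, u⟫_ℝ = 1 := by
        rw [real_inner_self_eq_norm_sq, hu, norm_smul, norm_inv, norm_norm,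
          inv_mul_cancel₀ hgp.ne', one_pow]
      have huo : ∀ i, ⟪v i, u⟫_ℝ = 0 := by
        intro i
        rw [hu, inner_smul_right]
        have hvi : v i ∈ U := Submodule.subset_span (Set.mem_range_self i)
        rw [Submodule.inner_right_of_mem_orthogonal hvi hgo, mul_zero]
      have hort : Orthonormal ℝ (Fin.cons u v : Fin (n + 1) → X) := by
        rw [orthonormal_iff_ite] at hv ⊢
        intro i j
        refine Fin.cases ?_ (fun i => ?_) i <;> refine Fin.cases ?_ (fun j => ?_) j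
        · rw [Fin.cons_zero, hun, if_pos rfl]
        · rw [Fin.cons_zero, Fin.cons_succ, real_inner_comm, huo j]
          rw [if_neg (Fin.succ_ne_zero j).symm]
        · rw [Fin.cons_zero, Fin.cons_succ, huo i]
          rw [if_neg (Fin.succ_ne_zero i)]
        · rw [Fin.cons_succ, Fin.cons_succ, hv i j]
          simp [Fin.succ_inj]
      have hle : ∑ i, ‖T ((Fin.cons u v : Fin (n + 1) → X) i)‖ ^ 2 ≤ sSup S :=
        le_csSup hSb ⟨n + 1, _, hort, rfl⟩
      rw [Fin.sum_univ_succ] at hle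
      simp only [Fin.cons_zero, Fin.cons_succ] at hle
      have h7 : ‖T u‖ ^ 2 ≤ (ε / 2) ^ 2 := by linarith
      have h8 : ‖T u‖ ≤ ε / 2 := (sq_le_sq₀ (norm_nonneg _) (by positivity)).1 h7
      have h9 : ‖T u‖ = (‖g‖)⁻¹ * ‖T g‖ := by
        rw [hu, map_smul, norm_smul, norm_inv, norm_norm]
      rw [h9, inv_mul_le_iff₀ hgp] at h8
      calc ‖T g‖ ≤ ‖g‖ * (ε / 2) := h8
        _ ≤ ‖f‖ * (ε / 2) := mul_le_mul_of_nonneg_right hgn (by positivity)
        _ = ε / 2 * ‖f‖ := by ring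
  rw [hclosed.closure_eq] at hmem
  exact hmem

end Pool.Agent.Helper93.LK
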