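import Pool.Agent.Helper94.LK.Spec

/-!
MP_e4073d_mp, part PART : partition of unity.
-/

set_option autoImplicit false

open MeasureTheory Filter Topology Set

namespace Pool.Agent.Helper93.LK

open Pool.Agent.Helper94.LK

/-- the angle function -/
noncomputable def th (L s : ℝ) : ℝ := Real.pi / 2 * max 0 (min 1 (2 * s / L - 1 / 2))

lemma th_lip (L : ℝ) (hL : 0 < L) (s s' : ℝ) : |th L s - th L s'| ≤ Real.pi / L * |s - s'| := by
  unfold th
  rw [← mul_sub, abs_mul, abs_of_pos (by positivity)]
  have h1 : |max 0 (min 1 (2 * s / L - 1 / 2)) - max 0 (min 1 (2 * s' / L - 1 / 2))| ≤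
      |min 1 (2 * s / L - 1 / 2) - min 1 (2 * s' / L - 1 / 2)| := by
    rw [max_comm 0, max_comm 0]
    exact abs_max_sub_max_le_abs _ _ _
  have h2 : |min 1 (2 * s / L - 1 / 2) - min 1 (2 * s' / L - 1 / 2)| ≤
      max |(1:ℝ) - 1| |(2 * s / L - 1 / 2) - (2 * s' / L - 1 / 2)| := abs_min_sub_min_le_max _ _ _ _
  have h3 : max |(1:ℝ) - 1| |(2 * s / L - 1 / 2) - (2 * s' / L - 1 / 2)| = 2 / L * |s - s'| := by
    rw [sub_self, abs_zero, max_eq_right (abs_nonneg _)]
    have : (2 * s / L - 1 / 2) - (2 * s' / L - 1 / 2) = 2 / L * (s - s') := by ring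
    rw [this, abs_mul, abs_of_pos (by positivity)]
  have hp := Real.pi_pos
  calc Real.pi / 2 * _ ≤ Real.pi / 2 * (2 / L * |s - s'|) := by
        apply mul_le_mul_of_nonneg_left _ (by positivity)
        rw [← h3]; exact h1.trans h2
    _ = Real.pi / L * |s - s'| := by ring

lemma th_cont (L : ℝ) : Continuous (th L) := by
  unfold th
  fun_prop

lemma th_zero (L : ℝ) (hL : 0 < L) (s : ℝ) (hs : s ≤ 0) : th L s = 0 := by
  unfold th
  have h1 : 2 * s / L ≤ 0 := div_nonpos_of_nonpos_of_nonneg (by linarith) hL.le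
  have h2 : min 1 (2 * s / L - 1 / 2) ≤ 0 := (min_le_right _ _).trans (by linarith)
  rw [max_eq_left h2, mul_zero]

lemma th_one (L : ℝ) (hL : 0 < L) (s : ℝ) (hs : L ≤ s) : th L s = Real.pi / 2 := by
  unfold th
  have h1 : 2 ≤ 2 * s / L := by rw [le_div_iff₀ hL]; linarith
  have h2 : min 1 (2 * s / L - 1 / 2) = 1 := min_eq_left (by linarith)
  rw [h2, max_eq_right zero_le_one, mul_one]

lemma abs_sin_sub_le (x y : ℝ) : |Real.sin x - Real.sin y| ≤ |x - y| := by
  have := Real.lipschitzWith_sin.dist_le_mul x y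
  simpa [Real.dist_eq] using this

lemma abs_cos_sub_le (x y : ℝ) : |Real.cos x - Real.cos y| ≤ |x - y| := by
  have := Real.lipschitzWith_cos.dist_le_mul x y
  simpa [Real.dist_eq] using this

theorem part_thm : S_PART := by
  intro L hL
  have hpi : Real.pi ≤ 4 := Real.pi_le_four
  have hp := Real.pi_pos
  refine ⟨fun s => Real.cos (th L s) * Real.cos (th L (-s)), fun s => Real.sin (th L s), ?_, ?_,
    ?_, ?_, ?_, ?_, ?_, ?_⟩
  · have h1 := th_cont L
    have h2 : Continuous fun s => th L (-s) := (th_cont L).comp continuous_neg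
    exact (Real.continuous_cos.comp h1).mul (Real.continuous_cos.comp h2)
  · exact Real.continuous_sin.comp (th_cont L)
  · intro s
    simp only [neg_neg]
    ring
  · intro s
    simp only
    rcases le_total s 0 with h | h
    · rw [th_zero L hL s h, Real.cos_zero, Real.sin_zero]
      nlinarith [Real.sin_sq_add_cos_sq (th L (-s))]
    · rw [th_zero L hL (-s) (by linarith), Real.cos_zero, Real.sin_zero]
      nlinarith [Real.sin_sq_add_cos_sq (th L s)]
  · intro s hs
    by_contra hneg
    push Not at hneg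
    apply hs
    simp only
    rw [th_zero L hL s hneg.le, Real.sin_zero]
  · intro s hs
    by_contra hneg
    push Not at hneg
    apply hs
    simp only
    rcases le_total s 0 with h | h
    · rw [abs_of_nonpos h] at hneg
      rw [th_one L hL (-s) hneg.le, Real.cos_pi_div_two, mul_zero]
    · rw [abs_of_nonneg h] at hneg
      rw [th_one L hL s hneg.le, Real.cos_pi_div_two, zero_mul]
  · intro s s'
    simp only
    refine (abs_sin_sub_le _ _).trans ((th_lip L hL s s').trans ?_)
    apply mul_le_mul_of_nonneg_right _ (abs_nonneg _)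
    apply div_le_div_of_nonneg_right _ hL.le
    linarith
  · intro s s'
    simp only
    have h1 : Real.cos (th L s) * Real.cos (th L (-s)) - Real.cos (th L s') * Real.cos (th L (-s'))
        = (Real.cos (th L s) - Real.cos (th L s')) * Real.cos (th L (-s)) +
          Real.cos (th L s') * (Real.cos (th L (-s)) - Real.cos (th L (-s'))) := by ring
    rw [h1]
    refine (abs_add_le _ _).trans ?_
    rw [abs_mul, abs_mul]
    have h2 := (abs_cos_sub_le (th L s) (th L s')).trans (th_lip L hL s s')
    have h3 := (abs_cos_sub_le (th L (-s)) (th L (-s'))).trans (th_lip L hL (-s) (-s'))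
    have h4 : |-s - -s'| = |s - s'| := by rw [← abs_neg]; congr 1; ring
    rw [h4] at h3
    have h5 := Real.abs_cos_le_one (th L (-s))
    have h6 := Real.abs_cos_le_one (th L s')
    have h7 : |Real.cos (th L s) - Real.cos (th L s')| * |Real.cos (th L (-s))| ≤
        Real.pi / L * |s - s'| := by
      calc _ ≤ |Real.cos (th L s) - Real.cos (th L s')| * 1 :=
            mul_le_mul_of_nonneg_left h5 (abs_nonneg _)
        _ ≤ _ := by rw [mul_one]; exact h2
    have h8 : |Real.cos (th L s')| * |Real.cos (th L (-s)) - Real.cos (th L (-s'))| ≤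
        Real.pi / L * |s - s'| := by
      calc _ ≤ 1 * |Real.cos (th L (-s)) - Real.cos (th L (-s'))| :=
            mul_le_mul_of_nonneg_right h6 (abs_nonneg _)
        _ ≤ _ := by rw [one_mul]; exact h3
    have h9 : Real.pi / L * |s - s'| + Real.pi / L * |s - s'| ≤ 10 / L * |s - s'| := by
      have : Real.pi / L * |s - s'| + Real.pi / L * |s - s'| = (2 * Real.pi) / L * |s - s'| := by
        ring
      rw [this]
      apply mul_le_mul_of_nonneg_right _ (abs_nonneg _)
      apply div_le_div_of_nonneg_right _ hL.le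
      linarith
    linarith

end Pool.Agent.Helper93.LK
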