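import Pool.Agent.Helper93.LK.HSC

/-!
MP_e4073d_mp, part POS : the curve with one bend has a simple top eigenvalue above `1/2`.
-/

set_option autoImplicit false

open MeasureTheory Filter Topology Set
open scoped ENNReal InnerProductSpace

namespace Pool.Agent.Helper93.LK

open Pool.Agent.Helper94.LK

lemma ae_fst {P : ℝ → Prop} (h : ∀ᵐ s, P s) : ∀ᵐ z : ℝ × ℝ, P z.1 :=
  Measure.quasiMeasurePreserving_fst.ae h

lemma ae_snd {P : ℝ → Prop} (h : ∀ᵐ s, P s) : ∀ᵐ z : ℝ × ℝ, P z.2 :=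
  Measure.quasiMeasurePreserving_snd.ae h

lemma bil_congr (G : ℝ → ℝ → ℝ) (f f' h h' : ℝ → ℝ) (hf : f =ᵐ[volume] f') (hh : h =ᵐ[volume] h') :
    Bil G f h = Bil G f' h' := by
  unfold Bil
  apply integral_congr_ae
  filter_upwards [ae_fst hf, ae_snd hh] with z h1 h2
  rw [h1, h2]

lemma bil_symm (G : ℝ → ℝ → ℝ) (hG : ∀ s s', G s s' = G s' s) (f h : ℝ → ℝ) :
    Bil G f h = Bil G h f := by
  unfold Bil
  have := integral_prod_swap (μ := (volume : Measure ℝ)) (ν := (volume : Measure ℝ))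
    (fun z : ℝ × ℝ => G z.1 z.2 * (f z.1 * h z.2))
  rw [show (volume : Measure (ℝ × ℝ)) = volume.prod volume from rfl, ← this]
  apply integral_congr_ae
  filter_upwards with z
  simp only [Prod.fst_swap, Prod.snd_swap]
  rw [hG z.2 z.1]; ring

lemma N_eq (f : X) : N f = ‖f‖ ^ 2 := by
  rw [← real_inner_self_eq_norm_sq, inner_X]
  unfold N
  congr 1
  ext s
  ring

lemma ae_off_diag : ∀ᵐ z : ℝ × ℝ, z.1 ≠ z.2 := by
  have h1 : MeasurableSet {z : ℝ × ℝ | z.1 = z.2} := measurableSet_eq_fun measurable_fst measurable_snd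
  have h2 : (volume : Measure (ℝ × ℝ)) {z : ℝ × ℝ | z.1 = z.2} = 0 := by
    rw [show (volume : Measure (ℝ × ℝ)) = volume.prod volume from rfl, Measure.measure_prod_null h1]
    filter_upwards with x
    have : (Prod.mk x ⁻¹' {z : ℝ × ℝ | z.1 = z.2}) = {x} := by
      ext y; simp [eq_comm]
    rw [this]; simp
  have h3 : {z : ℝ × ℝ | ¬ (z.1 ≠ z.2)} = {z : ℝ × ℝ | z.1 = z.2} := by ext z; simp
  rw [ae_iff, h3]; exact h2

lemma sign_of_prod (u : ℝ → ℝ) (h : ∀ᵐ z : ℝ × ℝ, |u z.1| * |u z.2| = u z.1 * u z.2) :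
    ∃ σ : ℝ, (σ = 1 ∨ σ = -1) ∧ ∀ᵐ s, |u s| = σ * u s := by
  by_cases h0 : ∀ᵐ s, u s = 0
  · refine ⟨1, Or.inl rfl, ?_⟩
    filter_upwards [h0] with s hs
    simp [hs]
  · have h1 : ∀ᵐ s, ∀ᵐ s', |u s| * |u s'| = u s * u s' := Measure.ae_ae_of_ae_prod h
    have h2 : ∃ᵐ s, u s ≠ 0 := by
      rw [Filter.not_eventually] at h0; exact h0
    obtain ⟨s₀, hs0, hs1⟩ := (h2.and_eventually h1).exists
    rcases lt_or_gt_of_ne hs0 with hneg | hpos
    · refine ⟨-1, Or.inr rfl, ?_⟩
      filter_upwards [hs1] with s hs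
      rw [abs_of_neg hneg] at hs
      have : u s₀ * (|u s| + u s) = 0 := by linarith
      rcases mul_eq_zero.1 this with h | h
      · exact absurd h hs0
      · linarith
    · refine ⟨1, Or.inl rfl, ?_⟩
      filter_upwards [hs1] with s hs
      rw [abs_of_pos hpos] at hs
      have := mul_left_cancel₀ hs0 hs
      rw [this]; ring

lemma zero_or_zero (u w : ℝ → ℝ) (h : ∀ᵐ z : ℝ × ℝ, u z.1 * w z.2 = 0) :
    (∀ᵐ s, u s = 0) ∨ ∀ᵐ s, w s = 0 := by
  by_cases h0 : ∀ᵐ s, u s = 0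
  · exact Or.inl h0
  · right
    have h1 : ∀ᵐ s, ∀ᵐ s', u s * w s' = 0 := Measure.ae_ae_of_ae_prod h
    have h2 : ∃ᵐ s, u s ≠ 0 := by
      rw [Filter.not_eventually] at h0; exact h0
    obtain ⟨s₀, hs0, hs1⟩ := (h2.and_eventually h1).exists
    filter_upwards [hs1] with s hs
    rcases mul_eq_zero.1 hs with h | h
    · exact absurd h hs0
    · exact h

lemma GC_symm (γ : ℝ → E2) (s s' : ℝ) : GC γ s s' = GC γ s' s := by
  unfold GC; rw [norm_sub_rev]

theorem pos_thm (hK1 : S_K1) (hHSC : S_HSC) (hOP : S_OP) (hGAP : S_GAP) (hGEO : S_GEO)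
    (hKB : S_KB) (hEHS : S_EHS) (hTENT : S_TENT) : S_POS := by
  -- the kernel forms
  have hblow : ∀ s s' : ℝ, √(9 / 10) * |s - s'| ≤ ‖bnd s - bnd s'‖ := by
    intro s s'
    have h1 := hGEO.blow s s'
    have h2 : (√(9 / 10) * |s - s'|) ^ 2 ≤ ‖bnd s - bnd s'‖ ^ 2 := by
      rw [mul_pow, Real.sq_sqrt (by norm_num), sq_abs]; exact h1
    exact (sq_le_sq₀ (by positivity) (norm_nonneg _)).1 h2
  have hG := hKB.kC bnd √(9 / 10) (by positivity) hGEO.bcont hblow
  have hS := hKB.kS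
  have hdist : ∀ s s' : ℝ, s ≠ s' → 0 < ‖bnd s - bnd s'‖ := by
    intro s s' hss
    have h1 := hblow s s'
    have h2 : 0 < √(9 / 10) * |s - s'| := by
      have : 0 < |s - s'| := abs_pos.2 (sub_ne_zero.2 hss)
      positivity
    linarith
  have hGpos : ∀ s s' : ℝ, s ≠ s' → 0 < GC bnd s s' := fun s s' hss => hK1.pos _ (hdist s s' hss)
  have hGnn : ∀ s s' : ℝ, 0 ≤ GC bnd s s' := fun s s' => hK1.nonneg _
  set E : ℝ → ℝ → ℝ := fun s s' => GC bnd s s' - GS s s' with hE
  have hEnn : ∀ s s' : ℝ, 0 ≤ E s s' := by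
    intro s s'
    by_cases hss : s = s'
    · rw [hE, hss]; simp [GC, GS]
    · have h1 := hK1.anti.antitoneOn (hdist s s' hss)
        (abs_pos.2 (sub_ne_zero.2 hss) : (0:ℝ) < |s - s'|) (hGEO.blip s s')
      show 0 ≤ kap ‖bnd s - bnd s'‖ - kap |s - s'|
      linarith
  have hEpos : ∀ s s' : ℝ, s < 0 → 0 < s' → 0 < E s s' := by
    intro s s' h0 h0'
    have hss : s ≠ s' := (h0.trans h0').ne
    have h1 := hK1.anti (hdist s s' hss)
        (abs_pos.2 (sub_ne_zero.2 hss) : (0:ℝ) < |s - s'|) (hGEO.bopp s s' h0 h0')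
    show 0 < kap ‖bnd s - bnd s'‖ - kap |s - s'|
    linarith
  obtain ⟨T, -, hTf⟩ := hOP _ _ hG
  obtain ⟨K, -, hKf⟩ := hOP _ _ hS
  have hEm : Measurable (Function.uncurry E) := hG.meas.sub hS.meas
  have hEint : ∀ f h : ℝ → ℝ, MemLp f 2 volume → MemLp h 2 volume →
      Integrable (fun z : ℝ × ℝ => E z.1 z.2 * (f z.1 * h z.2)) := by
    intro f h hf hh
    refine ((hG.int f h hf hh).sub (hS.int f h hf hh)).congr ?_
    filter_upwards with z
    simp only [hE, Pi.sub_apply]; ring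
  have hEB : ∀ f h : ℝ → ℝ, MemLp f 2 volume → MemLp h 2 volume →
      Bil (GC bnd) f h = Bil GS f h + Bil E f h := by
    intro f h hf hh
    unfold Bil
    rw [← integral_add (hS.int f h hf hh) (hEint f h hf hh)]
    apply integral_congr_ae
    filter_upwards with z
    simp only [hE]; ring
  have hCf : ∀ f h : X, ⟪(T - K) f, h⟫_ℝ = Bil E f h := by
    intro f h
    rw [sub_apply, inner_sub_left, hTf, hKf,
      hEB f h (Lp.memLp f) (Lp.memLp h)]
    ring
  have hC : IsCompactOperator (T - K) := hHSC E hEm hEHS.eB (T - K) hCf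
  have hTs : ∀ f h : X, ⟪T f, h⟫_ℝ = ⟪f, T h⟫_ℝ := by
    intro f h
    rw [real_inner_comm (T h) f, hTf, hTf, bil_symm _ (GC_symm bnd)]
  -- a good trial function
  have htrial : ∃ f : X, 1 / 2 * ‖f‖ ^ 2 < ⟪T f, f⟫_ℝ := by
    have ht2 := hTENT.mem 0 2 (by norm_num)
    have hten0 : ∀ w s, 0 ≤ tent 0 w s := fun w s => le_max_left _ _
    have hg : 0 < Bil E (tent 0 2) (tent 0 2) := by
      unfold Bil
      rw [integral_pos_iff_support_of_nonneg]
      · have hsub : (Ioo (-1:ℝ) 0) ×ˢ (Ioo (0:ℝ) 1) ⊆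
            Function.support (fun z : ℝ × ℝ => E z.1 z.2 * (tent 0 2 z.1 * tent 0 2 z.2)) := by
          rintro ⟨s, s'⟩ ⟨⟨h1, h2⟩, h3, h4⟩
          simp only at h1 h2 h3 h4
          rw [Function.mem_support]
          have h5 := hEpos s s' h2 h3
          have h6 : 0 < tent 0 2 s := by
            unfold tent
            apply lt_max_of_lt_right
            rw [sub_zero, abs_of_neg h2]; linarith
          have h7 : 0 < tent 0 2 s' := by
            unfold tent
            apply lt_max_of_lt_right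
            rw [sub_zero, abs_of_pos h3]; linarith
          exact (mul_pos h5 (mul_pos h6 h7)).ne'
        refine lt_of_lt_of_le ?_ (measure_mono hsub)
        rw [show (volume : Measure (ℝ × ℝ)) = volume.prod volume from rfl, Measure.prod_prod,
          Real.volume_Ioo, Real.volume_Ioo]
        norm_num
      · intro z
        exact mul_nonneg (hEnn _ _) (mul_nonneg (hten0 _ _) (hten0 _ _))
      · exact hEint _ _ ht2 ht2
    set g := Bil E (tent 0 2) (tent 0 2) with hgdef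
    set w : ℝ := max 2 (2 / g) with hw
    have hw2 : 2 ≤ w := le_max_left _ _
    have hw0 : 0 < w := by linarith
    have hwg : 1 / w < g := by
      have h1 : 2 / g ≤ w := le_max_right _ _
      rw [div_le_iff₀ hg] at h1
      rw [div_lt_iff₀ hw0]
      nlinarith
    have htw := hTENT.mem 0 w hw0
    have hmono : g ≤ Bil E (tent 0 w) (tent 0 w) := by
      rw [hgdef]
      unfold Bil
      apply integral_mono (hEint _ _ ht2 ht2) (hEint _ _ htw htw)
      intro z
      have hle : ∀ s, tent 0 2 s ≤ tent 0 w s := by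
        intro s
        unfold tent
        apply max_le_max le_rfl
        have : |s - 0| / w ≤ |s - 0| / 2 := by
          apply div_le_div_of_nonneg_left (abs_nonneg _) (by norm_num) hw2
        linarith
      exact mul_le_mul_of_nonneg_left (mul_le_mul (hle _) (hle _) (hten0 _ _) (hten0 _ _))
        (hEnn _ _)
    have hform := hTENT.form 0 w hw0
    have hval : 1 / 2 * N (tent 0 w) < Bil (GC bnd) (tent 0 w) (tent 0 w) := by
      rw [hEB _ _ htw htw]; linarith
    refine ⟨htw.toLp _, ?_⟩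
    rw [hTf, ← N_eq]
    have e1 : N (htw.toLp _ : X) = N (tent 0 w) := by
      unfold N
      apply integral_congr_ae
      filter_upwards [htw.coeFn_toLp] with s hs
      rw [hs]
    rw [e1, bil_congr _ _ _ _ _ htw.coeFn_toLp htw.coeFn_toLp]
    exact hval
  -- simplicity
  have hsign : ∀ μ : ℝ, (∀ f : X, ⟪T f, f⟫_ℝ ≤ μ * ‖f‖ ^ 2) → ∀ u : X, T u = μ • u →
      ∃ σ : ℝ, (σ = 1 ∨ σ = -1) ∧ ∀ᵐ s, |u s| = σ * u s := by
    intro μ hμ u hu
    apply sign_of_prod
    have hum := Lp.memLp u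
    have habs : MemLp (fun s => |u s|) 2 volume := hum.abs
    have i1 := hG.int _ _ hum hum
    have i2 := hG.int _ _ habs habs
    have e1 : Bil (GC bnd) u u = μ * ‖u‖ ^ 2 := by
      rw [← hTf, hu, real_inner_smul_left, real_inner_self_eq_norm_sq]
    have e2 : Bil (GC bnd) (fun s => |u s|) (fun s => |u s|) ≤ μ * ‖u‖ ^ 2 := by
      have h1 := hμ (habs.toLp _)
      rw [hTf, ← N_eq, bil_congr _ _ _ _ _ habs.coeFn_toLp habs.coeFn_toLp] at h1
      have e3 : N (habs.toLp _ : X) = N u := by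
        unfold N
        apply integral_congr_ae
        filter_upwards [habs.coeFn_toLp] with s hs
        rw [hs, sq_abs]
      rwa [e3, N_eq] at h1
    have hnn : ∀ z : ℝ × ℝ, 0 ≤ GC bnd z.1 z.2 * (|u z.1| * |u z.2|) -
        GC bnd z.1 z.2 * (u z.1 * u z.2) := by
      intro z
      rw [← mul_sub]
      apply mul_nonneg (hGnn _ _)
      rw [← abs_mul]
      linarith [le_abs_self (u z.1 * u z.2)]
    have hint : ∫ z : ℝ × ℝ, (GC bnd z.1 z.2 * (|u z.1| * |u z.2|) -
        GC bnd z.1 z.2 * (u z.1 * u z.2)) = 0 := by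
      apply le_antisymm
      · rw [integral_sub i2 i1]
        have : Bil (GC bnd) (fun s => |u s|) (fun s => |u s|) - Bil (GC bnd) u u ≤ 0 := by
          rw [e1]; linarith
        exact this
      · exact integral_nonneg hnn
    rw [integral_eq_zero_iff_of_nonneg hnn (i2.sub i1)] at hint
    filter_upwards [hint, ae_off_diag] with z h1 h2
    have h3 := hGpos z.1 z.2 h2
    have h4 : GC bnd z.1 z.2 * (|u z.1| * |u z.2| - u z.1 * u z.2) = 0 := by
      rw [mul_sub]; exact h1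
    rcases mul_eq_zero.1 h4 with h | h
    · exact absurd h h3.ne'
    · linarith
  have hsimple : ∀ μ : ℝ, (∀ f : X, ⟪T f, f⟫_ℝ ≤ μ * ‖f‖ ^ 2) → ∀ u w : X, T u = μ • u →
      T w = μ • w → ⟪u, w⟫_ℝ = 0 → u = 0 ∨ w = 0 := by
    intro μ hμ u w hu hw huw
    obtain ⟨σ, hσ, hσu⟩ := hsign μ hμ u hu
    obtain ⟨τ, hτ, hτw⟩ := hsign μ hμ w hw
    have hum := Lp.memLp u
    have hwm := Lp.memLp w
    have e1 : Bil (GC bnd) u w = 0 := by
      rw [← hTf, hu, real_inner_smul_left, huw, mul_zero]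
    have e2 : Bil (GC bnd) (fun s => |u s|) (fun s => |w s|) = 0 := by
      have h1 : Bil (GC bnd) (fun s => |u s|) (fun s => |w s|) = σ * τ * Bil (GC bnd) u w := by
        unfold Bil
        rw [← integral_const_mul]
        apply integral_congr_ae
        filter_upwards [ae_fst hσu, ae_snd hτw] with z h1 h2
        rw [h1, h2]; ring
      rw [h1, e1, mul_zero]
    have hnn : ∀ z : ℝ × ℝ, 0 ≤ GC bnd z.1 z.2 * (|u z.1| * |w z.2|) := fun z =>
      mul_nonneg (hGnn _ _) (mul_nonneg (abs_nonneg _) (abs_nonneg _))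
    unfold Bil at e2
    rw [integral_eq_zero_iff_of_nonneg hnn (hG.int _ _ hum.abs hwm.abs)] at e2
    have e3 : ∀ᵐ z : ℝ × ℝ, u z.1 * w z.2 = 0 := by
      filter_upwards [e2, ae_off_diag] with z h1 h2
      have h3 := hGpos z.1 z.2 h2
      have h4 : GC bnd z.1 z.2 * (|u z.1| * |w z.2|) = 0 := h1
      rcases mul_eq_zero.1 h4 with h | h
      · exact absurd h h3.ne'
      · rw [← abs_mul] at h
        exact abs_eq_zero.1 h
    rcases zero_or_zero u w e3 with h | h
    · left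
      apply Lp.ext
      filter_upwards [h, Lp.coeFn_zero ℝ 2 (volume : Measure ℝ)] with s h1 h2
      rw [h1, h2]; rfl
    · right
      apply Lp.ext
      filter_upwards [h, Lp.coeFn_zero ℝ 2 (volume : Measure ℝ)] with s h1 h2
      rw [h1, h2]; rfl
  have hKle : ∀ f : X, ⟪K f, f⟫_ℝ ≤ 1 / 2 * ‖f‖ ^ 2 := by
    intro f
    rw [hKf, ← N_eq]
    exact hTENT.pos f (Lp.memLp f)
  obtain ⟨v, μ, ν, hv1, hTv, hμ, hμ2, hνμ, hgap⟩ := hGAP X T K (T - K) hTs (by abel) hC hKle
    htrial hsimple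
  refine ⟨v, μ, ν, Lp.memLp v, ?_, ?_, hμ2, hνμ, ?_⟩
  · rw [N_eq, hv1]; norm_num
  · rw [← hTf, hTv, real_inner_smul_left, real_inner_self_eq_norm_sq, hv1]; norm_num
  · intro f hf hfv
    have h1 := hgap (hf.toLp _) (by
      rw [inner_X, ← hfv]
      apply integral_congr_ae
      filter_upwards [hf.coeFn_toLp] with s hs
      rw [hs])
    rw [hTf, ← N_eq, bil_congr _ _ _ _ _ hf.coeFn_toLp hf.coeFn_toLp] at h1
    have e3 : N (hf.toLp _ : X) = N f := by
      unfold N
      apply integral_congr_ae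
      filter_upwards [hf.coeFn_toLp] with s hs
      rw [hs]
    rwa [e3] at h1

end Pool.Agent.Helper93.LK
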